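import Pool.Agent.Helper20.HP.Data2

/-!
# Principal basis of a plane (piece HOPF-PA)
-/

open Filter Metric Module Set
open scoped Topology ContDiff RealInnerProductSpace Manifold Quaternion

namespace Pool.Agent.Helper41.HP
open Pool.Agent.Helper20.PC Pool.Agent.Helper20.HP

/-! ### algebra -/

/-- a rotation diagonalising a symmetric `2 × 2` matrix. -/
lemma exists_rot (p q r : ℝ) : ∃ c s : ℝ, c ^ 2 + s ^ 2 = 1 ∧ (r - p) * (s * c) + q * (c ^ 2 - s ^ 2) = 0 := by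
  set z : ℂ := ⟨(p - r) / 2, q⟩ with hz
  refine ⟨Real.cos (z.arg / 2), Real.sin (z.arg / 2), Real.cos_sq_add_sin_sq _, ?_⟩
  have h1 : ‖z‖ * Real.cos z.arg = (p - r) / 2 := by rw [Complex.norm_mul_cos_arg]
  have h2 : ‖z‖ * Real.sin z.arg = q := by rw [Complex.norm_mul_sin_arg]
  have h3 : Real.cos z.arg = Real.cos (z.arg / 2) ^ 2 - Real.sin (z.arg / 2) ^ 2 := by
    have := Real.cos_two_mul' (z.arg / 2)
    rwa [mul_div_cancel₀ _ (two_ne_zero)] at this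
  have h4 : Real.sin z.arg = 2 * Real.sin (z.arg / 2) * Real.cos (z.arg / 2) := by
    have := Real.sin_two_mul (z.arg / 2)
    rwa [mul_div_cancel₀ _ (two_ne_zero)] at this
  rw [h3] at h1
  rw [h4] at h2
  linear_combination (2 * (Real.sin (z.arg / 2) * Real.cos (z.arg / 2))) * h1
    - (Real.cos (z.arg / 2) ^ 2 - Real.sin (z.arg / 2) ^ 2) * h2

/-- simultaneous diagonalisation of two forms on a plane. -/
lemma simul_diag {E : Type*} [AddCommGroup E] [Module ℝ E] (G A : E →ₗ[ℝ] E →ₗ[ℝ] ℝ)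
    (hGs : ∀ a b, G a b = G b a) (hAs : ∀ a b, A a b = A b a) (hG : ∀ a, a ≠ 0 → 0 < G a a) {p q : E}
    (h : LinearIndependent ℝ ![p, q]) :
    ∃ (e1 e2 : E) (a b c d a' b' c' d' : ℝ), G e1 e1 = 1 ∧ G e2 e2 = 1 ∧ G e1 e2 = 0 ∧ A e1 e2 = 0 ∧
      a * d - b * c ≠ 0 ∧ p = a • e1 + b • e2 ∧ q = c • e1 + d • e2 ∧
      e1 = a' • p + b' • q ∧ e2 = c' • p + d' • q := by
  have hp : p ≠ 0 := by
    have := h.ne_zero 0
    simpa using this
  have hp0 : 0 < G p p := hG p hp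
  set t : ℝ := G p q / G p p with ht
  set q' : E := q - t • p with hq'
  have hq'0 : q' ≠ 0 := by
    intro h0
    rw [LinearIndependent.pair_iff] at h
    have := h (-t) 1 (by rw [← h0, hq']; module)
    exact one_ne_zero this.2
  have hq0 : 0 < G q' q' := hG q' hq'0
  have hpq : G p q' = 0 := by
    rw [hq', map_sub, map_smul, smul_eq_mul, ht]
    field_simp
    ring
  set n1 : ℝ := √(G p p) with hn1
  set n2 : ℝ := √(G q' q') with hn2
  have hn1p : 0 < n1 := Real.sqrt_pos.mpr hp0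
  have hn2p : 0 < n2 := Real.sqrt_pos.mpr hq0
  have hn1s : n1 ^ 2 = G p p := Real.sq_sqrt hp0.le
  have hn2s : n2 ^ 2 = G q' q' := Real.sq_sqrt hq0.le
  set f1 : E := n1⁻¹ • p with hf1
  set f2 : E := n2⁻¹ • q' with hf2
  have g11 : G f1 f1 = 1 := by
    simp only [hf1, map_smul, LinearMap.smul_apply, smul_eq_mul, ← hn1s]
    field_simp
  have g22 : G f2 f2 = 1 := by
    simp only [hf2, map_smul, LinearMap.smul_apply, smul_eq_mul, ← hn2s]
    field_simp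
  have g12 : G f1 f2 = 0 := by
    simp only [hf1, hf2, map_smul, LinearMap.smul_apply, smul_eq_mul, hpq]
    ring
  have g21 : G f2 f1 = 0 := by rw [hGs, g12]
  obtain ⟨c, s, hcs, hrot⟩ := exists_rot (A f1 f1) (A f1 f2) (A f2 f2)
  have ep : p = n1 • f1 := by rw [hf1, smul_smul, mul_inv_cancel₀ hn1p.ne', one_smul]
  have eq' : q' = n2 • f2 := by rw [hf2, smul_smul, mul_inv_cancel₀ hn2p.ne', one_smul]
  have eq : q = (t * n1) • f1 + n2 • f2 := by
    rw [← eq', hq', mul_smul, ← ep]; module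
  refine ⟨c • f1 + s • f2, (-s) • f1 + c • f2, n1 * c, -(n1 * s), t * n1 * c + n2 * s, n2 * c - t * n1 * s,
    c * n1⁻¹ - s * n2⁻¹ * t, s * n2⁻¹, -(s * n1⁻¹) - c * n2⁻¹ * t, c * n2⁻¹, ?_, ?_, ?_, ?_, ?_, ?_, ?_, ?_, ?_⟩
  · simp only [map_add, map_smul, LinearMap.add_apply, LinearMap.smul_apply, smul_eq_mul, g11, g12, g21, g22]
    linear_combination hcs
  · simp only [map_add, map_smul, LinearMap.add_apply, LinearMap.smul_apply, smul_eq_mul, g11, g12, g21, g22]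
    linear_combination hcs
  · simp only [map_add, map_smul, LinearMap.add_apply, LinearMap.smul_apply, smul_eq_mul, g11, g12, g21, g22]
    ring
  · simp only [map_add, map_smul, LinearMap.add_apply, LinearMap.smul_apply, smul_eq_mul, hAs f2 f1]
    linear_combination hrot
  · have : n1 * c * (n2 * c - t * n1 * s) - -(n1 * s) * (t * n1 * c + n2 * s) = n1 * n2 := by
      linear_combination (n1 * n2) * hcs
    rw [this]
    positivity
  · have h1 : n1 * c * c + -(n1 * s) * -s = n1 := by linear_combination n1 * hcs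
    have h2 : n1 * c * s + -(n1 * s) * c = 0 := by ring
    calc p = n1 • f1 := ep
      _ = (n1 * c * c + -(n1 * s) * -s) • f1 + (n1 * c * s + -(n1 * s) * c) • f2 := by
          rw [h1, h2, zero_smul, add_zero]
      _ = _ := by module
  · have h1 : (t * n1 * c + n2 * s) * c + (n2 * c - t * n1 * s) * -s = t * n1 := by
      linear_combination (t * n1) * hcs
    have h2 : (t * n1 * c + n2 * s) * s + (n2 * c - t * n1 * s) * c = n2 := by
      linear_combination n2 * hcs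
    calc q = (t * n1) • f1 + n2 • f2 := eq
      _ = ((t * n1 * c + n2 * s) * c + (n2 * c - t * n1 * s) * -s) • f1
          + ((t * n1 * c + n2 * s) * s + (n2 * c - t * n1 * s) * c) • f2 := by rw [h1, h2]
      _ = _ := by module
  · rw [hf1, hf2, hq']; module
  · rw [hf1, hf2, hq']; module

/-- vertical part. -/
lemma exists_orth {F : Type*} [AddCommGroup F] [Module ℝ F] [FiniteDimensional ℝ F] (hF : 1 < finrank ℝ F)
    (M : F →ₗ[ℝ] F →ₗ[ℝ] ℝ) (hMs : ∀ a b, M a b = M b a) (hM : ∀ a, a ≠ 0 → 0 < M a a) {w1 w2 : F}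
    (h : M w1 w2 = 0) :
    ∃ (U V : F) (sa sb : ℝ), M U U = 1 ∧ M V V = 1 ∧ M U V = 0 ∧ w1 = sa • U ∧ w2 = sb • V := by
  have key : ∀ U : F, ∃ V : F, V ≠ 0 ∧ M U V = 0 := by
    intro U
    have : LinearMap.ker (M U) ≠ ⊥ := LinearMap.ker_ne_bot_of_finrank_lt (by simpa using hF)
    obtain ⟨V, hV, hV0⟩ := (Submodule.ne_bot_iff _).mp this
    exact ⟨V, hV0, by simpa using hV⟩
  have unit : ∀ w : F, w ≠ 0 → ∃ s : ℝ, s ≠ 0 ∧ M (s⁻¹ • w) (s⁻¹ • w) = 1 ∧ w = s • (s⁻¹ • w) := by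
    intro w hw
    have h0 := hM w hw
    have h1 : 0 < √(M w w) := Real.sqrt_pos.mpr h0
    have h2 : √(M w w) ^ 2 = M w w := Real.sq_sqrt h0.le
    refine ⟨√(M w w), h1.ne', ?_, ?_⟩
    · simp only [map_smul, LinearMap.smul_apply, smul_eq_mul]
      rw [← h2]
      field_simp
      simp
    · rw [smul_smul, mul_inv_cancel₀ h1.ne', one_smul]
  obtain ⟨w1', hw1', hw1⟩ : ∃ w1' : F, w1' ≠ 0 ∧ M w1' w2 = 0 ∧ ∃ r : ℝ, w1 = r • w1' := by
    by_cases hw : w1 = 0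
    · obtain ⟨V, hV, hV2⟩ := key w2
      exact ⟨V, hV, by rw [hMs]; exact hV2, 0, by simp [hw]⟩
    · exact ⟨w1, hw, h, 1, by simp⟩
  obtain ⟨hw12, r1, hr1⟩ := hw1
  obtain ⟨w2', hw2', hw22, r2, hr2⟩ : ∃ w2' : F, w2' ≠ 0 ∧ M w1' w2' = 0 ∧ ∃ r : ℝ, w2 = r • w2' := by
    by_cases hw : w2 = 0
    · obtain ⟨V, hV, hV2⟩ := key w1'
      exact ⟨V, hV, hV2, 0, by simp [hw]⟩
    · exact ⟨w2, hw, hw12, 1, by simp⟩
  obtain ⟨s1, hs1, hu1, he1⟩ := unit w1' hw1'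
  obtain ⟨s2, hs2, hu2, he2⟩ := unit w2' hw2'
  refine ⟨s1⁻¹ • w1', s2⁻¹ • w2', r1 * s1, r2 * s2, hu1, hu2, ?_, ?_, ?_⟩
  · simp only [map_smul, LinearMap.smul_apply, smul_eq_mul, hw22]
    ring
  · rw [mul_smul, ← he1, ← hr1]
  · rw [mul_smul, ← he2, ← hr2]

/-! ### cross products -/

lemma inner_E3 (a b : E3) : ⟪a, b⟫ = a 0 * b 0 + a 1 * b 1 + a 2 * b 2 := by
  simp [PiLp.inner_apply, Fin.sum_univ_three]
  ring

lemma norm_E3 (a : E3) : ‖a‖ ^ 2 = a 0 ^ 2 + a 1 ^ 2 + a 2 ^ 2 := by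
  rw [← real_inner_self_eq_norm_sq, inner_E3]; ring

lemma cr_zero (a : E3) : cr a 0 = 0 := by
  ext i; fin_cases i <;> simp [cr]

lemma inner_cr_left (a b : E3) : ⟪a, cr a b⟫ = 0 := by
  rw [inner_E3]; simp [cr]; ring

lemma inner_cr_right (a b : E3) : ⟪b, cr a b⟫ = 0 := by
  rw [inner_E3]; simp [cr]; ring

lemma norm_cr (a b : E3) : ‖cr a b‖ ^ 2 = ‖a‖ ^ 2 * ‖b‖ ^ 2 - ⟪a, b⟫ ^ 2 := by
  rw [norm_E3, norm_E3, norm_E3, inner_E3]; simp [cr]; ring

lemma cr_cr_self (a b : E3) : cr a (cr b a) = (‖a‖ ^ 2) • b - ⟪a, b⟫ • a := by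
  ext i
  rw [norm_E3, inner_E3]
  fin_cases i <;> simp [cr] <;> ring

lemma expand_cr (x X y : E3) :
    (‖cr x X‖ ^ 2) • y = ⟪y, cr x X⟫ • cr x X + cr (cr x X) (⟪X, y⟫ • x - ⟪x, y⟫ • X) := by
  ext i
  rw [norm_E3, inner_E3, inner_E3, inner_E3]
  fin_cases i <;> simp [cr] <;> ring

/-- horizontal part. -/
lemma exists_frame {x : E3} (hx : ‖x‖ = 1) {y z : E3} (hy : ⟪x, y⟫ = 0) (hz : ⟪x, z⟫ = 0) (hyz : ⟪y, z⟫ = 0) :
    ∃ (X : E3) (r s : ℝ), ‖X‖ = 1 ∧ ⟪x, X⟫ = 0 ∧ y = r • X ∧ z = s • cr x X := by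
  have unit : ∀ w : E3, w ≠ 0 → ‖‖w‖⁻¹ • w‖ = 1 ∧ w = ‖w‖ • (‖w‖⁻¹ • w) := by
    intro w hw
    have h0 : ‖w‖ ≠ 0 := norm_ne_zero_iff.mpr hw
    refine ⟨?_, by rw [smul_smul, mul_inv_cancel₀ h0, one_smul]⟩
    rw [norm_smul, norm_inv, norm_norm, inv_mul_cancel₀ h0]
  by_cases h : y = 0
  · -- choose `n` with `z = s • n`
    obtain ⟨n, hn, hxn, s, hs⟩ : ∃ n : E3, ‖n‖ = 1 ∧ ⟪x, n⟫ = 0 ∧ ∃ s : ℝ, z = s • n := by
      by_cases h' : z = 0
      · obtain ⟨w, hw, hxw⟩ : ∃ w : E3, w ≠ 0 ∧ ⟪x, w⟫ = 0 := by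
          have h1 : x 0 ^ 2 + x 1 ^ 2 + x 2 ^ 2 = 1 := by rw [← norm_E3, hx]; norm_num
          by_cases h2 : x 1 = 0 ∧ x 2 = 0
          · refine ⟨!₂[0, 1, 0], ?_, ?_⟩
            · intro h3
              have := congrArg (fun v : E3 => v 1) h3
              simp at this
            · rw [inner_E3]; simp [h2.1]
          · refine ⟨!₂[0, -x 2, x 1], ?_, ?_⟩
            · intro h3
              apply h2
              have e1 := congrArg (fun v : E3 => v 1) h3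
              have e2 := congrArg (fun v : E3 => v 2) h3
              simp at e1 e2
              exact ⟨e2, e1⟩
            · rw [inner_E3]; simp; ring
        exact ⟨‖w‖⁻¹ • w, (unit w hw).1, by rw [inner_smul_right, hxw, mul_zero], 0, by simp [h']⟩
      · exact ⟨‖z‖⁻¹ • z, (unit z h').1, by rw [inner_smul_right, hz, mul_zero], ‖z‖, (unit z h').2⟩
    refine ⟨cr n x, 0, s, ?_, ?_, by simp [h], ?_⟩
    · have h1 := norm_cr n x
      rw [hn, hx, real_inner_comm, hxn] at h1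
      have h2 : ‖cr n x‖ ^ 2 = 1 := by rw [h1]; norm_num
      have h3 := norm_nonneg (cr n x)
      nlinarith
    · exact inner_cr_right n x
    · rw [cr_cr_self, hx, hxn, hs]
      simp
  · set X : E3 := ‖y‖⁻¹ • y with hX
    have hX1 : ‖X‖ = 1 := (unit y h).1
    have hxX : ⟪x, X⟫ = 0 := by rw [hX, inner_smul_right, hy, mul_zero]
    have hXz : ⟪X, z⟫ = 0 := by rw [hX, real_inner_smul_left, hyz, mul_zero]
    refine ⟨X, ‖y‖, ⟪z, cr x X⟫, hX1, hxX, (unit y h).2, ?_⟩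
    have h1 := expand_cr x X z
    rw [norm_cr, hx, hX1, hxX, hXz, hz] at h1
    simpa [cr_zero] using h1

/-! ### the forms -/

lemma Mh_eq (κ ε T δ : ℝ) (x a b : E3) : Mh κ ε T δ x a b = ⟪a, b⟫ - δ ^ 2 * SbL κ ε T x a b := rfl

lemma Mh_symm (κ ε T δ : ℝ) (x a b : E3) : Mh κ ε T δ x a b = Mh κ ε T δ x b a := by
  rw [Mh, Mh, real_inner_comm]
  congr 2
  simp only [Sb, SbG, dotG, FbG, HbG, PhG, smul_eq_mul]
  ring

/-- the form `Mh` as a bilinear map. -/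
noncomputable def MhB (κ ε T δ : ℝ) (x : E3) : E3 →ₗ[ℝ] E3 →ₗ[ℝ] ℝ :=
  LinearMap.mk₂ ℝ (Mh κ ε T δ x)
    (fun a b c => by simp only [Mh_eq, inner_add_left, map_add, _root_.add_apply]; ring)
    (fun r a b => by
      simp only [Mh_eq, real_inner_smul_left, map_smul, _root_.smul_apply, smul_eq_mul]; ring)
    (fun a b c => by simp only [Mh_eq, inner_add_right, map_add]; ring)
    (fun r a b => by simp only [Mh_eq, real_inner_smul_right, map_smul, smul_eq_mul]; ring)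

@[simp] lemma MhB_apply (κ ε T δ : ℝ) (x a b : E3) : MhB κ ε T δ x a b = Mh κ ε T δ x a b := rfl

lemma Mh_pos {κ ε T δ : ℝ} {x a : E3} (h : 0 < Mf κ ε T δ x a a) : 0 < Mh κ ε T δ x a a := by
  have h1 : Mf κ ε T δ x a a = δ ^ 2 * Mh κ ε T δ x a a := by
    simp only [Mf, Mh_eq, _root_.sub_apply, _root_.smul_apply, smul_eq_mul, inL_apply]
    ring
  rw [h1] at h
  by_contra h2
  exact absurd h (not_lt.mpr (mul_nonpos_of_nonneg_of_nonpos (sq_nonneg δ) (not_lt.mp h2)))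

lemma sg_pos {κ : ℝ} (hκ : |κ| ≤ 1 / 10) {x : E3} (hx : ‖x‖ = 1) : 0 < sg κ x := by
  have h1 : x 0 ^ 2 + x 1 ^ 2 + x 2 ^ 2 = 1 := by rw [← norm_E3, hx]; norm_num
  have h2 : |Hb x x| ≤ 2 := by
    simp only [Hb, HbG]
    rw [abs_le]
    constructor <;> nlinarith [sq_nonneg (x 0 - x 1), sq_nonneg (x 0 - x 2), sq_nonneg (x 0 + x 1),
      sq_nonneg (x 0 + x 2), sq_nonneg (x 1), sq_nonneg (x 2)]
  have h3 : |κ * Hb x x| ≤ 1 / 10 * 2 := by
    rw [abs_mul]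
    exact mul_le_mul hκ h2 (abs_nonneg _) (by norm_num)
  have h4 := (abs_le.mp h3).2
  simp only [sg]
  linarith

/-- the horizontal part of the metric. -/
noncomputable def hB (σ : ℝ) : (E3 × E3) →ₗ[ℝ] (E3 × E3) →ₗ[ℝ] ℝ :=
  LinearMap.mk₂ ℝ (fun a b => (σ ^ 2)⁻¹ * ⟪a.1, b.1⟫)
    (fun a b c => by simp only [Prod.fst_add, inner_add_left]; ring)
    (fun r a b => by simp only [Prod.smul_fst, real_inner_smul_left, smul_eq_mul]; ring)
    (fun a b c => by simp only [Prod.fst_add, inner_add_right]; ring)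
    (fun r a b => by simp only [Prod.smul_fst, real_inner_smul_right, smul_eq_mul]; ring)

lemma hB_apply (σ : ℝ) (a b : E3 × E3) : hB σ a b = (σ ^ 2)⁻¹ * ⟪a.1, b.1⟫ := rfl

/-- the vertical part of the metric. -/
noncomputable def vB (κ ε T δ : ℝ) (x : E3) : (E3 × E3) →ₗ[ℝ] (E3 × E3) →ₗ[ℝ] ℝ :=
  (MhB κ ε T δ x).compl₁₂ (LinearMap.snd ℝ E3 E3) (LinearMap.snd ℝ E3 E3)

lemma vB_apply (κ ε T δ : ℝ) (x : E3) (a b : E3 × E3) : vB κ ε T δ x a b = Mh κ ε T δ x a.2 b.2 := rfl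

/-- the parametrisation of the tangent vectors. -/
noncomputable def parL (κ ε δ : ℝ) (x : E3) : (E3 × E3) →ₗ[ℝ] E3 × ℍ[ℝ] where
  toFun a := (a.1, (2 * δ)⁻¹ • qimL a.2 - AE κ ε x a.1)
  map_add' a b := by
    refine Prod.ext rfl ?_
    simp only [Prod.snd_add, Prod.fst_add, map_add, smul_add]
    abel
  map_smul' r a := by
    refine Prod.ext rfl ?_
    simp only [Prod.smul_snd, Prod.smul_fst, map_smul, RingHom.id_apply, smul_sub]
    rw [smul_comm]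

lemma parL_apply (κ ε δ : ℝ) (x : E3) (a : E3 × E3) :
    parL κ ε δ x a = (a.1, (2 * δ)⁻¹ • qimL a.2 - AE κ ε x a.1) := rfl

lemma AE_re (κ ε : ℝ) (x u : E3) : (AE κ ε x u).re = 0 := by
  have h : AE κ ε x u = (1/2 : ℝ) • qimL (AvL κ ε (nn x) (dn x u)) := rfl
  rw [h, ← map_smul, qimL_apply]

lemma qimL_vecL {q : ℍ[ℝ]} (h : q.re = 0) : qimL (vecL q) = q := by
  rw [qimL_apply, vecL_apply]
  ext <;> simp [h]

lemma parL_surj {κ ε δ : ℝ} (hδ : 0 < δ) (x : E3) {u : E3 × ℍ[ℝ]} (hu : u.2.re = 0) :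
    parL κ ε δ x (u.1, (2 * δ) • vecL (u.2 + AE κ ε x u.1)) = u := by
  have h1 : (u.2 + AE κ ε x u.1).re = 0 := by simp [hu, AE_re]
  rw [parL_apply]
  refine Prod.ext rfl ?_
  simp only
  rw [map_smul, smul_smul, inv_mul_cancel₀ (by positivity : (2 * δ) ≠ 0), one_smul, qimL_vecL h1]
  abel

lemma parL_pv {κ ε δ : ℝ} (x X U : E3) (ca sa : ℝ) :
    parL κ ε δ x (ca • (sg κ x • X), sa • U) = pv κ ε δ x X ca sa U := by
  rw [parL_apply, pv]
  refine Prod.ext rfl ?_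
  simp only
  rw [map_smul, smul_smul, div_eq_mul_inv, mul_comm sa]

/-- principal basis of a plane. -/
theorem principal {κ ε T δ : ℝ} (hκ : |κ| ≤ 1/10) (hδ : 0 < δ) {x : E3} (hx : ‖x‖ = 1)
    (hM : ∀ y : E3, ‖y‖ = 1 → ∀ a, a ≠ 0 → 0 < Mf κ ε T δ y a a)
    {u v : E3 × ℍ[ℝ]} (hu : ⟪x, u.1⟫ = 0) (hu' : u.2.re = 0) (hv : ⟪x, v.1⟫ = 0) (hv' : v.2.re = 0)
    (huv : LinearIndependent ℝ ![u, v]) :
    ∃ (X U V : E3) (ca sa cb sb a b c d : ℝ), ‖X‖ = 1 ∧ ⟪x, X⟫ = 0 ∧ ca ^ 2 + sa ^ 2 = 1 ∧ cb ^ 2 + sb ^ 2 = 1 ∧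
      Mh κ ε T δ x U U = 1 ∧ Mh κ ε T δ x V V = 1 ∧ Mh κ ε T δ x U V = 0 ∧ a * d - b * c ≠ 0 ∧
      u = a • pv κ ε δ x X ca sa U + b • pv κ ε δ x (cr x X) cb sb V ∧
      v = c • pv κ ε δ x X ca sa U + d • pv κ ε δ x (cr x X) cb sb V := by
  have hs : 0 < sg κ x := sg_pos hκ hx
  set σ : ℝ := sg κ x with hσ
  have hMp : ∀ a : E3, a ≠ 0 → 0 < Mh κ ε T δ x a a := fun a ha => Mh_pos (hM x hx a ha)
  set p : E3 × E3 := (u.1, (2 * δ) • vecL (u.2 + AE κ ε x u.1)) with hp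
  set q : E3 × E3 := (v.1, (2 * δ) • vecL (v.2 + AE κ ε x v.1)) with hq
  have hpu : parL κ ε δ x p = u := parL_surj hδ x hu'
  have hqv : parL κ ε δ x q = v := parL_surj hδ x hv'
  have hli : LinearIndependent ℝ ![p, q] := by
    apply LinearIndependent.of_comp (parL κ ε δ x)
    convert huv using 1
    ext i : 1
    fin_cases i
    · simpa using hpu
    · simpa using hqv
  obtain ⟨e1, e2, a, b, c, d, a', b', c', d', h11, h22, h12, hA, hdet, hpe, hqe, he1, he2⟩ :=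
    simul_diag (hB σ + vB κ ε T δ x) (hB σ)
      (fun a b => by simp only [LinearMap.add_apply, hB_apply, vB_apply, real_inner_comm a.1 b.1, Mh_symm κ ε T δ x a.2 b.2])
      (fun a b => by simp only [hB_apply, real_inner_comm a.1 b.1])
      (fun a ha => by
        simp only [LinearMap.add_apply, hB_apply, vB_apply, real_inner_self_eq_norm_sq]
        by_cases h1 : a.1 = 0
        · have h2 : a.2 ≠ 0 := fun h2 => ha (Prod.ext h1 h2)
          have h3 := hMp _ h2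
          have : 0 ≤ (σ ^ 2)⁻¹ * ‖a.1‖ ^ 2 := by positivity
          linarith
        · have h2 : 0 ≤ Mh κ ε T δ x a.2 a.2 := by
            by_cases h3 : a.2 = 0
            · rw [h3, ← MhB_apply, map_zero]
            · exact (hMp _ h3).le
          have h3 : 0 < ‖a.1‖ := norm_pos_iff.mpr h1
          have : 0 < (σ ^ 2)⁻¹ * ‖a.1‖ ^ 2 := by positivity
          linarith) hli
  simp only [LinearMap.add_apply, hB_apply, vB_apply] at h11 h22 h12 hA
  have hσ2 : (σ ^ 2)⁻¹ ≠ 0 := by positivity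
  have hin : ⟪e1.1, e2.1⟫ = 0 := by
    rcases mul_eq_zero.mp hA with h | h
    · exact absurd h hσ2
    · exact h
  have hxe1 : ⟪x, e1.1⟫ = 0 := by
    rw [he1, Prod.fst_add, Prod.smul_fst, Prod.smul_fst, inner_add_right, inner_smul_right, inner_smul_right, hu, hv]
    simp
  have hxe2 : ⟪x, e2.1⟫ = 0 := by
    rw [he2, Prod.fst_add, Prod.smul_fst, Prod.smul_fst, inner_add_right, inner_smul_right, inner_smul_right, hu, hv]
    simp
  have hMe : Mh κ ε T δ x e1.2 e2.2 = 0 := by rw [hin] at h12; linarith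
  obtain ⟨X, r, s, hX, hxX, hr, hs'⟩ := exists_frame hx hxe1 hxe2 hin
  obtain ⟨U, V, sa, sb, hU, hV, hUV, hsa, hsb⟩ := exists_orth (by simp) (MhB κ ε T δ x)
    (fun a b => Mh_symm κ ε T δ x a b) hMp (w1 := e1.2) (w2 := e2.2) hMe
  have hn : ‖cr x X‖ = 1 := by
    have h1 := norm_cr x X
    rw [hx, hX, hxX] at h1
    have h2 : ‖cr x X‖ ^ 2 = 1 := by rw [h1]; norm_num
    have h3 := norm_nonneg (cr x X)
    nlinarith
  have hre : r • X = (r / σ) • (σ • X) := by rw [smul_smul, div_mul_cancel₀ _ hs.ne']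
  have hse : s • cr x X = (s / σ) • (σ • cr x X) := by rw [smul_smul, div_mul_cancel₀ _ hs.ne']
  have hE1 : e1 = ((r / σ) • (σ • X), sa • U) := Prod.ext (by rw [hr, hre]) hsa
  have hE2 : e2 = ((s / σ) • (σ • cr x X), sb • V) := Prod.ext (by rw [hs', hse]) hsb
  refine ⟨X, U, V, r / σ, sa, s / σ, sb, a, b, c, d, hX, hxX, ?_, ?_, hU, hV, hUV, hdet, ?_, ?_⟩
  · have h1 : ⟪e1.1, e1.1⟫ = r ^ 2 := by
      rw [hr, real_inner_smul_left, real_inner_smul_right, real_inner_self_eq_norm_sq, hX]; ring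
    have h2 : Mh κ ε T δ x e1.2 e1.2 = sa ^ 2 := by
      rw [hsa, ← MhB_apply]
      simp only [map_smul, LinearMap.smul_apply, smul_eq_mul, hU]
      ring
    rw [h1, h2] at h11
    rw [div_pow, div_eq_mul_inv, mul_comm]
    exact h11
  · have h1 : ⟪e2.1, e2.1⟫ = s ^ 2 := by
      rw [hs', real_inner_smul_left, real_inner_smul_right, real_inner_self_eq_norm_sq, hn]; ring
    have h2 : Mh κ ε T δ x e2.2 e2.2 = sb ^ 2 := by
      rw [hsb, ← MhB_apply]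
      simp only [map_smul, LinearMap.smul_apply, smul_eq_mul, hV]
      ring
    rw [h1, h2] at h22
    rw [div_pow, div_eq_mul_inv, mul_comm]
    exact h22
  · rw [← parL_pv, ← parL_pv, ← hσ, ← hE1, ← hE2, ← map_smul, ← map_smul, ← map_add, ← hpe, hpu]
  · rw [← parL_pv, ← parL_pv, ← hσ, ← hE1, ← hE2, ← map_smul, ← map_smul, ← map_add, ← hqe, hqv]

end Pool.Agent.Helper41.HP
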